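import Mathlib

open MeasureTheory Set Filter Topology
open scoped ContDiff

namespace Pool.Agent.Results.MP_4601b9_an.SignViolation

/-- A weight: measurable and bounded a.e. between two positive constants. -/
def IsWeight (a : ℝ → ℝ) : Prop :=
  Measurable a ∧ ∃ a₀ A₀ : ℝ, 0 < a₀ ∧ a₀ ≤ A₀ ∧ ∀ᵐ x, a₀ ≤ a x ∧ a x ≤ A₀

/-- `φ ∈ Ḣ¹(ℝ)` with distributional derivative `ψ`: `φ` is continuous, `ψ ∈ L²(ℝ)` and
`∫ (φ η' + ψ η) = 0` for every test function `η`. -/
def IsHdot (φ ψ : ℝ → ℝ) : Prop :=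
  Continuous φ ∧ MemLp ψ 2 volume ∧
  ∀ η : ℝ → ℝ, ContDiff ℝ ∞ η → HasCompactSupport η →
    ∫ x, (φ x * deriv η x + ψ x * η x) = 0

/-- The weighted pendulum equation (E) in the sense of distributions on `ℝ \ {0}`, where `ψ` is
the derivative of `φ`. -/
def SolvesE (a φ ψ : ℝ → ℝ) : Prop :=
  ∀ η : ℝ → ℝ, ContDiff ℝ ∞ η → HasCompactSupport η → (0 : ℝ) ∉ tsupport η →
    ∫ x, (a x * ψ x * deriv η x - a x * Real.sin (φ x) * Real.cos (φ x) * η x) = 0

/-- The constraints (K). -/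
def SatisfiesK (φ : ℝ → ℝ) : Prop :=
  φ 0 = 0 ∧ Tendsto φ atTop (𝓝 (Real.pi / 2)) ∧ Tendsto φ atBot (𝓝 (-(Real.pi / 2)))

noncomputable def L : ℝ := 5 * Real.pi / 4

lemma L_pos : 0 < L := by unfold L; positivity

noncomputable def s (x : ℝ) : ℝ := Real.sin (4 * x / 5)
noncomputable def c (x : ℝ) : ℝ := Real.sqrt (1 - (3 / 5 * s x) ^ 2)
noncomputable def e (x : ℝ) : ℝ := Real.exp (-(9 / 32 * s x ^ 2))

/-- three-piece functions, cut at `0` and at `L`. -/
noncomputable def piece (f g h : ℝ → ℝ) (x : ℝ) : ℝ :=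
  if x ≤ 0 then f x else if x ≤ L then g x else h x

noncomputable def φ1 (x : ℝ) : ℝ := Real.arctan (Real.sinh x)
noncomputable def ψ1 (x : ℝ) : ℝ := 1 / Real.cosh x
noncomputable def φ2 (x : ℝ) : ℝ := -Real.arcsin (3 / 5 * s x)
noncomputable def ψ2 (x : ℝ) : ℝ := -(12 / 25 * Real.cos (4 * x / 5) / c x)
noncomputable def φ3 (x : ℝ) : ℝ := Real.arctan (Real.sinh (x - L))
noncomputable def ψ3 (x : ℝ) : ℝ := 1 / Real.cosh (x - L)

noncomputable def p1 (x : ℝ) : ℝ := 1 / Real.cosh x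
noncomputable def q1 (x : ℝ) : ℝ := Real.sinh x / Real.cosh x ^ 2
noncomputable def p2 (x : ℝ) : ℝ := -(12 / 25 * Real.cos (4 * x / 5) * e x)
noncomputable def q2 (x : ℝ) : ℝ := -(3 / 5 * s x * (1 - (3 / 5 * s x) ^ 2) * e x)
noncomputable def p3 (x : ℝ) : ℝ := 12 / 25 * (1 / Real.cosh (x - L))
noncomputable def q3 (x : ℝ) : ℝ := 12 / 25 * (Real.sinh (x - L) / Real.cosh (x - L) ^ 2)

/-- The weight. -/
noncomputable def a0 : ℝ → ℝ := piece (fun _ => 1) (fun x => e x * c x) (fun _ => 12 / 25)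
/-- The solution. -/
noncomputable def φ0 : ℝ → ℝ := piece φ1 φ2 φ3
/-- Its derivative. -/
noncomputable def ψ0 : ℝ → ℝ := piece ψ1 ψ2 ψ3

lemma abs_s_le (x : ℝ) : |3 / 5 * s x| ≤ 3 / 5 := by
  rw [abs_mul, abs_of_pos (by norm_num : (0 : ℝ) < 3 / 5)]
  have := Real.abs_sin_le_one (4 * x / 5)
  unfold s; linarith

lemma s_sq_le (x : ℝ) : s x ^ 2 ≤ 1 := Real.sin_sq_le_one _

lemma c_arg (x : ℝ) : 16 / 25 ≤ 1 - (3 / 5 * s x) ^ 2 := by
  have := s_sq_le x
  nlinarith

lemma c_pos (x : ℝ) : 0 < c x := Real.sqrt_pos.2 (by linarith [c_arg x])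

lemma c_sq (x : ℝ) : c x ^ 2 = 1 - (3 / 5 * s x) ^ 2 := Real.sq_sqrt (by linarith [c_arg x])

lemma c_le (x : ℝ) : c x ≤ 1 := by
  have h1 := c_sq x
  have h2 := c_pos x
  nlinarith [sq_nonneg (3 / 5 * s x)]

lemma c_ge (x : ℝ) : 4 / 5 ≤ c x := by
  have h1 := c_sq x
  have h2 := c_pos x
  have h3 := c_arg x
  nlinarith

lemma hasDerivAt_s (x : ℝ) : HasDerivAt s (Real.cos (4 * x / 5) * (4 / 5)) x := by
  have h1 : HasDerivAt (fun x : ℝ => 4 * x / 5) (4 / 5) x := by
    have := ((hasDerivAt_id x).const_mul 4).div_const 5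
    simpa using this
  exact (Real.hasDerivAt_sin _).comp x h1

lemma hasDerivAt_cos45 (x : ℝ) :
    HasDerivAt (fun x : ℝ => Real.cos (4 * x / 5)) (-Real.sin (4 * x / 5) * (4 / 5)) x := by
  have h1 : HasDerivAt (fun x : ℝ => 4 * x / 5) (4 / 5) x := by
    have := ((hasDerivAt_id x).const_mul 4).div_const 5
    simpa using this
  exact (Real.hasDerivAt_cos _).comp x h1

lemma hasDerivAt_e (x : ℝ) :
    HasDerivAt e (e x * (-(9 / 32 * (2 * s x * (Real.cos (4 * x / 5) * (4 / 5)))))) x := by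
  have h1 : HasDerivAt (fun x => -(9 / 32 * s x ^ 2))
      (-(9 / 32 * (2 * s x * (Real.cos (4 * x / 5) * (4 / 5))))) x := by
    have h0 : HasDerivAt (fun x => -(9 / 32 * s x ^ 2))
      (-(9 / 32 * (((2 : ℕ) : ℝ) * s x ^ (2 - 1) * (Real.cos (4 * x / 5) * (4 / 5))))) x :=
      (((hasDerivAt_s x).pow 2).const_mul (9 / 32)).neg
    have ev : -(9 / 32 * (((2 : ℕ) : ℝ) * s x ^ (2 - 1) * (Real.cos (4 * x / 5) * (4 / 5)))) =
      -(9 / 32 * (2 * s x * (Real.cos (4 * x / 5) * (4 / 5)))) := by norm_num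
    rw [ev] at h0
    exact h0
  exact h1.exp

lemma hφ1 (x : ℝ) : HasDerivAt φ1 (ψ1 x) x := by
  have h := (Real.hasDerivAt_sinh x).arctan
  have h2 : 1 / (1 + Real.sinh x ^ 2) * Real.cosh x = ψ1 x := by
    have hc := Real.cosh_pos x
    have : 1 + Real.sinh x ^ 2 = Real.cosh x ^ 2 := by rw [Real.cosh_sq]; ring
    rw [this]; unfold ψ1; field_simp
  rw [← h2]; exact h

lemma hφ3 (x : ℝ) : HasDerivAt φ3 (ψ3 x) x := by
  have h : HasDerivAt (fun x => φ1 (x - L)) (ψ1 (x - L) * 1) x :=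
    HasDerivAt.comp (h₂ := φ1) (h := fun x => x - L) x (hφ1 (x - L))
      ((hasDerivAt_id x).sub_const L)
  rw [mul_one] at h
  exact h

lemma hφ2 (x : ℝ) : HasDerivAt φ2 (ψ2 x) x := by
  have h1 : HasDerivAt (fun x => 3 / 5 * s x) (3 / 5 * (Real.cos (4 * x / 5) * (4 / 5))) x :=
    (hasDerivAt_s x).const_mul _
  have hne1 : 3 / 5 * s x ≠ -1 := by
    intro h; have := abs_s_le x; rw [h] at this; norm_num at this
  have hne2 : 3 / 5 * s x ≠ 1 := by
    intro h; have := abs_s_le x; rw [h] at this; norm_num at this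
  have h2 := ((Real.hasDerivAt_arcsin hne1 hne2).comp x h1).neg
  have h3 : -(1 / Real.sqrt (1 - (3 / 5 * s x) ^ 2) *
      (3 / 5 * (Real.cos (4 * x / 5) * (4 / 5)))) = ψ2 x := by
    unfold ψ2 c; ring
  rw [← h3]; exact h2

lemma hp1 (x : ℝ) : HasDerivAt p1 (-(q1 x)) x := by
  have h := (Real.hasDerivAt_cosh x).inv (Real.cosh_pos x).ne'
  have e1 : p1 = fun x => (Real.cosh x)⁻¹ := by funext x; simp [p1]
  have e2 : -(q1 x) = -Real.sinh x / Real.cosh x ^ 2 := by unfold q1; ring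
  rw [e1, e2]; exact h

lemma hp3 (x : ℝ) : HasDerivAt p3 (-(q3 x)) x := by
  have h := ((hp1 (x - L)).comp x ((hasDerivAt_id x).sub_const L)).const_mul (12 / 25)
  have e2 : -(q3 x) = 12 / 25 * (-q1 (x - L) * 1) := by unfold q3 q1; ring
  rw [e2]; exact h

lemma hp2 (x : ℝ) : HasDerivAt p2 (-(q2 x)) x := by
  have h := (((hasDerivAt_cos45 x).const_mul (12 / 25)).mul (hasDerivAt_e x)).neg
  have e2 : -(12 / 25 * (-Real.sin (4 * x / 5) * (4 / 5)) * e x +
      12 / 25 * Real.cos (4 * x / 5) *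
      (e x * (-(9 / 32 * (2 * s x * (Real.cos (4 * x / 5) * (4 / 5))))))) = -(q2 x) := by
    have h1 : Real.cos (4 * x / 5) ^ 2 = 1 - s x ^ 2 := by
      unfold s; rw [← Real.sin_sq_add_cos_sq (4 * x / 5)]; ring
    have h2 : Real.sin (4 * x / 5) = s x := rfl
    rw [h2]
    unfold q2
    linear_combination (27 / 125 * s x * e x) * h1
  rw [← e2]; exact h

lemma cont_s : Continuous s := by unfold s; fun_prop
lemma cont_c : Continuous c := by have := cont_s; unfold c; fun_prop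
lemma cont_e : Continuous e := by have := cont_s; unfold e; fun_prop
lemma cont_ψ1 : Continuous ψ1 := by
  unfold ψ1
  exact continuous_const.div Real.continuous_cosh fun x => (Real.cosh_pos x).ne'
lemma cont_ψ3 : Continuous ψ3 := cont_ψ1.comp (continuous_id.sub continuous_const)
lemma cont_ψ2 : Continuous ψ2 := by
  have h1 := cont_c
  unfold ψ2
  apply Continuous.neg
  exact Continuous.div (by fun_prop) h1 fun x => (c_pos x).ne'
lemma cont_q1 : Continuous q1 := by
  unfold q1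
  exact Real.continuous_sinh.div (Real.continuous_cosh.pow 2)
    fun x => (pow_pos (Real.cosh_pos x) 2).ne'
lemma cont_q3 : Continuous q3 :=
  continuous_const.mul (cont_q1.comp (continuous_id.sub continuous_const))
lemma cont_q2 : Continuous q2 := by
  have h1 := cont_s
  have h2 := cont_e
  unfold q2; fun_prop
lemma cont_φ1 : Continuous φ1 := continuous_iff_continuousAt.2 fun x => (hφ1 x).continuousAt
lemma cont_φ2 : Continuous φ2 := continuous_iff_continuousAt.2 fun x => (hφ2 x).continuousAt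
lemma cont_φ3 : Continuous φ3 := continuous_iff_continuousAt.2 fun x => (hφ3 x).continuousAt
lemma cont_p1 : Continuous p1 := continuous_iff_continuousAt.2 fun x => (hp1 x).continuousAt
lemma cont_p2 : Continuous p2 := continuous_iff_continuousAt.2 fun x => (hp2 x).continuousAt
lemma cont_p3 : Continuous p3 := continuous_iff_continuousAt.2 fun x => (hp3 x).continuousAt

/-- Integral of a three-piece derivative. -/
lemma integral_piece {F1 F2 F3 f1 f2 f3 : ℝ → ℝ} (h1 : ∀ x, HasDerivAt F1 (f1 x) x)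
    (h2 : ∀ x, HasDerivAt F2 (f2 x) x) (h3 : ∀ x, HasDerivAt F3 (f3 x) x)
    (c1 : Continuous f1) (c2 : Continuous f2) (c3 : Continuous f3)
    {R : ℝ} (hR : L < R)
    (z1 : ∀ x, x ∉ Ioc (-R) R → f1 x = 0) (z2 : ∀ x, x ∉ Ioc (-R) R → f2 x = 0)
    (z3 : ∀ x, x ∉ Ioc (-R) R → f3 x = 0) (w1 : F1 (-R) = 0) (w3 : F3 R = 0) :
    ∫ x, piece f1 f2 f3 x = F1 0 - F2 0 + F2 L - F3 L := by
  have hL := L_pos
  have hsupp : Function.support (piece f1 f2 f3) ⊆ Ioc (-R) R := by
    intro x hx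
    by_contra h
    apply hx
    unfold piece
    split_ifs
    · exact z1 x h
    · exact z2 x h
    · exact z3 x h
  rw [← intervalIntegral.integral_eq_integral_of_support_subset hsupp]
  have e1 : ∫ x in (-R)..0, piece f1 f2 f3 x = ∫ x in (-R)..0, f1 x := by
    apply intervalIntegral.integral_congr_ae
    refine ae_of_all _ fun x hx => ?_
    rw [uIoc_of_le (by linarith)] at hx
    simp [piece, hx.2]
  have e2 : ∫ x in (0 : ℝ)..L, piece f1 f2 f3 x = ∫ x in (0 : ℝ)..L, f2 x := by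
    apply intervalIntegral.integral_congr_ae
    refine ae_of_all _ fun x hx => ?_
    rw [uIoc_of_le hL.le] at hx
    simp [piece, hx.2, not_le.2 hx.1]
  have e3 : ∫ x in L..R, piece f1 f2 f3 x = ∫ x in L..R, f3 x := by
    apply intervalIntegral.integral_congr_ae
    refine ae_of_all _ fun x hx => ?_
    rw [uIoc_of_le hR.le] at hx
    simp [piece, not_le.2 hx.1, not_le.2 (hL.trans hx.1)]
  have i1 : IntervalIntegrable (piece f1 f2 f3) volume (-R) 0 := by
    refine (c1.intervalIntegrable (μ := volume) (-R) 0).congr_ae ?_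
    rw [Filter.EventuallyEq, ae_restrict_iff' measurableSet_uIoc]
    refine ae_of_all _ fun x hx => ?_
    rw [uIoc_of_le (by linarith)] at hx
    simp [piece, hx.2]
  have i2 : IntervalIntegrable (piece f1 f2 f3) volume 0 L := by
    refine (c2.intervalIntegrable (μ := volume) 0 L).congr_ae ?_
    rw [Filter.EventuallyEq, ae_restrict_iff' measurableSet_uIoc]
    refine ae_of_all _ fun x hx => ?_
    rw [uIoc_of_le hL.le] at hx
    simp [piece, hx.2, not_le.2 hx.1]
  have i3 : IntervalIntegrable (piece f1 f2 f3) volume L R := by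
    refine (c3.intervalIntegrable (μ := volume) L R).congr_ae ?_
    rw [Filter.EventuallyEq, ae_restrict_iff' measurableSet_uIoc]
    refine ae_of_all _ fun x hx => ?_
    rw [uIoc_of_le hR.le] at hx
    simp [piece, not_le.2 hx.1, not_le.2 (hL.trans hx.1)]
  rw [← intervalIntegral.integral_add_adjacent_intervals (i1.trans i2) i3,
    ← intervalIntegral.integral_add_adjacent_intervals i1 i2, e1, e2, e3,
    intervalIntegral.integral_eq_sub_of_hasDerivAt (fun x _ => h1 x) (c1.intervalIntegrable _ _),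
    intervalIntegral.integral_eq_sub_of_hasDerivAt (fun x _ => h2 x) (c2.intervalIntegrable _ _),
    intervalIntegral.integral_eq_sub_of_hasDerivAt (fun x _ => h3 x) (c3.intervalIntegrable _ _),
    w1, w3]
  ring

lemma s_zero : s 0 = 0 := by simp [s]
lemma s_L : s L = 0 := by
  unfold s L
  rw [show 4 * (5 * Real.pi / 4) / 5 = Real.pi by ring, Real.sin_pi]
lemma cos_L : Real.cos (4 * L / 5) = -1 := by
  unfold L
  rw [show 4 * (5 * Real.pi / 4) / 5 = Real.pi by ring, Real.cos_pi]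

lemma φ1_zero : φ1 0 = 0 := by simp [φ1]
lemma φ2_zero : φ2 0 = 0 := by simp [φ2, s_zero]
lemma φ2_L : φ2 L = 0 := by simp [φ2, s_L]
lemma φ3_L : φ3 L = 0 := by simp [φ3]
lemma p2_L : p2 L = 12 / 25 := by
  have : e L = 1 := by simp [e, s_L]
  simp [p2, cos_L, this]
lemma p3_L : p3 L = 12 / 25 := by simp [p3]

/-- For a compactly supported `η` there is a large `R`. -/
lemma exists_R {η : ℝ → ℝ} (hc : HasCompactSupport η) :
    ∃ R, L < R ∧ (∀ x, x ∉ Ioc (-R) R → η x = 0 ∧ deriv η x = 0) ∧ η (-R) = 0 ∧ η R = 0 := by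
  obtain ⟨R, hR⟩ := hc.isCompact.isBounded.subset_closedBall 0
  refine ⟨max (R + 1) (L + 1), ?_, ?_, ?_, ?_⟩
  · exact lt_of_lt_of_le (by linarith) (le_max_right _ _)
  · intro x hx
    have hx' : x ∉ tsupport η := by
      intro h
      apply hx
      have h1 := hR h
      rw [Metric.mem_closedBall, dist_zero_right, Real.norm_eq_abs, abs_le] at h1
      have h2 := le_max_left (R + 1) (L + 1)
      constructor <;> linarith
    refine ⟨image_eq_zero_of_notMem_tsupport hx', ?_⟩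
    have h1 : x ∉ tsupport (deriv η) := fun h => hx' (tsupport_deriv_subset h)
    exact image_eq_zero_of_notMem_tsupport h1
  · apply image_eq_zero_of_notMem_tsupport
    intro h
    have h1 := hR h
    rw [Metric.mem_closedBall, dist_zero_right, Real.norm_eq_abs, abs_le] at h1
    have h2 := le_max_left (R + 1) (L + 1)
    linarith
  · apply image_eq_zero_of_notMem_tsupport
    intro h
    have h1 := hR h
    rw [Metric.mem_closedBall, dist_zero_right, Real.norm_eq_abs, abs_le] at h1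
    have h2 := le_max_left (R + 1) (L + 1)
    linarith

lemma weak_deriv (η : ℝ → ℝ) (hη : ContDiff ℝ ∞ η) (hc : HasCompactSupport η) :
    ∫ x, (φ0 x * deriv η x + ψ0 x * η x) = 0 := by
  obtain ⟨R, hR, hz, hR1, hR2⟩ := exists_R hc
  have hη1 : ContDiff ℝ 1 η := hη.of_le (by simp)
  have hd : ∀ x, HasDerivAt η (deriv η x) x := fun x =>
    (hη1.differentiable (by simp) x).hasDerivAt
  have hdc : Continuous (deriv η) := hη1.continuous_deriv (by simp)
  have hηc : Continuous η := hη.continuous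
  have e1 : (fun x => φ0 x * deriv η x + ψ0 x * η x) =
      piece (fun x => ψ1 x * η x + φ1 x * deriv η x) (fun x => ψ2 x * η x + φ2 x * deriv η x)
        (fun x => ψ3 x * η x + φ3 x * deriv η x) := by
    funext x
    unfold φ0 ψ0 piece
    split_ifs <;> ring
  have h := integral_piece (fun x => (hφ1 x).mul (hd x)) (fun x => (hφ2 x).mul (hd x))
    (fun x => (hφ3 x).mul (hd x)) ((cont_ψ1.mul hηc).add (cont_φ1.mul hdc))
    ((cont_ψ2.mul hηc).add (cont_φ2.mul hdc)) ((cont_ψ3.mul hηc).add (cont_φ3.mul hdc)) hR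
    (fun x hx => by rw [(hz x hx).1, (hz x hx).2]; simp)
    (fun x hx => by rw [(hz x hx).1, (hz x hx).2]; simp)
    (fun x hx => by rw [(hz x hx).1, (hz x hx).2]; simp)
    (by simp [hR1]) (by simp [hR2])
  rw [e1, h]
  simp [φ1_zero, φ2_zero, φ2_L, φ3_L]

lemma alg1 (x : ℝ) : Real.sin (φ1 x) * Real.cos (φ1 x) = q1 x := by
  unfold φ1 q1
  rw [Real.sin_arctan, Real.cos_arctan]
  have hc := Real.cosh_pos x
  have h1 : 1 + Real.sinh x ^ 2 = Real.cosh x ^ 2 := by rw [Real.cosh_sq]; ring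
  rw [h1, Real.sqrt_sq hc.le]
  field_simp

lemma alg3 (x : ℝ) : 12 / 25 * Real.sin (φ3 x) * Real.cos (φ3 x) = q3 x := by
  have := alg1 (x - L)
  unfold φ3 q3
  unfold φ1 q1 at this
  rw [← this]; ring

lemma alg2 (x : ℝ) : e x * c x * Real.sin (φ2 x) * Real.cos (φ2 x) = q2 x := by
  have h0 := abs_le.1 (abs_s_le x)
  unfold φ2
  rw [Real.sin_neg, Real.cos_neg, Real.sin_arcsin (by linarith) (by linarith), Real.cos_arcsin]
  have h1 := c_sq x
  have h2 : Real.sqrt (1 - (3 / 5 * s x) ^ 2) = c x := rfl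
  rw [h2]
  unfold q2
  rw [← h1]; ring

lemma eqn (η : ℝ → ℝ) (hη : ContDiff ℝ ∞ η) (hc : HasCompactSupport η)
    (h0 : (0 : ℝ) ∉ tsupport η) :
    ∫ x, (a0 x * ψ0 x * deriv η x - a0 x * Real.sin (φ0 x) * Real.cos (φ0 x) * η x) = 0 := by
  obtain ⟨R, hR, hz, hR1, hR2⟩ := exists_R hc
  have hη1 : ContDiff ℝ 1 η := hη.of_le (by simp)
  have hd : ∀ x, HasDerivAt η (deriv η x) x := fun x =>
    (hη1.differentiable (by simp) x).hasDerivAt
  have hdc : Continuous (deriv η) := hη1.continuous_deriv (by simp)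
  have hηc : Continuous η := hη.continuous
  have hη0 : η 0 = 0 := image_eq_zero_of_notMem_tsupport h0
  have e1 : (fun x => a0 x * ψ0 x * deriv η x - a0 x * Real.sin (φ0 x) * Real.cos (φ0 x) * η x) =
      piece (fun x => -(q1 x) * η x + p1 x * deriv η x) (fun x => -(q2 x) * η x + p2 x * deriv η x)
        (fun x => -(q3 x) * η x + p3 x * deriv η x) := by
    funext x
    unfold a0 φ0 ψ0 piece
    split_ifs
    · simp only []
      rw [← alg1]; unfold ψ1 p1; ring
    · simp only []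
      rw [← alg2]; unfold ψ2 p2
      have := c_pos x
      field_simp
      ring
    · simp only []
      rw [← alg3]; unfold ψ3 p3; ring
  have h := integral_piece (fun x => (hp1 x).mul (hd x)) (fun x => (hp2 x).mul (hd x))
    (fun x => (hp3 x).mul (hd x)) ((cont_q1.neg.mul hηc).add (cont_p1.mul hdc))
    ((cont_q2.neg.mul hηc).add (cont_p2.mul hdc)) ((cont_q3.neg.mul hηc).add (cont_p3.mul hdc)) hR
    (fun x hx => by rw [(hz x hx).1, (hz x hx).2]; simp)
    (fun x hx => by rw [(hz x hx).1, (hz x hx).2]; simp)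
    (fun x hx => by rw [(hz x hx).1, (hz x hx).2]; simp)
    (by simp [hR1]) (by simp [hR2])
  rw [e1, h]
  simp [p2_L, p3_L, hη0]

lemma cont_φ0 : Continuous φ0 := by
  unfold φ0
  show Continuous fun x => if x ≤ 0 then φ1 x else if x ≤ L then φ2 x else φ3 x
  apply Continuous.if_le cont_φ1 _ continuous_id continuous_const
  · intro x hx
    have hx' : x = 0 := hx
    rw [hx', if_pos L_pos.le, φ1_zero, φ2_zero]
  · apply Continuous.if_le cont_φ2 cont_φ3 continuous_id continuous_const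
    intro x hx
    have hx' : x = L := hx
    rw [hx', φ2_L, φ3_L]

lemma meas_piece {f g h : ℝ → ℝ} (hf : Measurable f) (hg : Measurable g) (hh : Measurable h) :
    Measurable (piece f g h) :=
  Measurable.ite measurableSet_Iic hf (Measurable.ite measurableSet_Iic hg hh)

lemma sq_le_sinh_sq (x : ℝ) : x ^ 2 ≤ Real.sinh x ^ 2 := by
  rcases le_total 0 x with h | h
  · have := Real.self_le_sinh_iff.2 h
    nlinarith
  · have := Real.sinh_le_self_iff.2 h
    nlinarith

lemma ψ1_sq_le (x : ℝ) : ψ1 x ^ 2 ≤ (1 + x ^ 2)⁻¹ := by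
  unfold ψ1
  rw [div_pow, one_pow, Real.cosh_sq, one_div]
  apply inv_anti₀ (by positivity)
  linarith [sq_le_sinh_sq x]

lemma ψ2_sq_le (x : ℝ) : ψ2 x ^ 2 ≤ 1 := by
  unfold ψ2
  rw [neg_sq, div_pow, div_le_one (pow_pos (c_pos x) 2), c_sq]
  have h1 := c_arg x
  have h2 : Real.cos (4 * x / 5) ^ 2 ≤ 1 := Real.cos_sq_le_one _
  nlinarith

lemma memLp_ψ0 : MemLp ψ0 2 volume := by
  have hm : Measurable ψ0 :=
    meas_piece cont_ψ1.measurable cont_ψ2.measurable cont_ψ3.measurable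
  rw [memLp_two_iff_integrable_sq hm.aestronglyMeasurable]
  have hint : Integrable (fun x : ℝ => (1 + x ^ 2)⁻¹ + (1 + (x - L) ^ 2)⁻¹ +
      (Icc 0 L).indicator (fun _ => (1 : ℝ)) x) := by
    apply Integrable.add
    · exact integrable_inv_one_add_sq.add (integrable_inv_one_add_sq.comp_sub_right L)
    · rw [integrable_indicator_iff measurableSet_Icc]
      exact integrableOn_const (by simp)
  refine hint.mono' (hm.pow_const 2).aestronglyMeasurable (ae_of_all _ fun x => ?_)
  rw [Real.norm_of_nonneg (sq_nonneg _)]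
  have h1 : 0 < (1 + x ^ 2)⁻¹ := by positivity
  have h2 : 0 < (1 + (x - L) ^ 2)⁻¹ := by positivity
  have h3 : 0 ≤ (Icc 0 L).indicator (fun _ => (1 : ℝ)) x := indicator_nonneg (fun _ _ => zero_le_one) x
  unfold ψ0 piece
  split_ifs with hx hxL
  · have := ψ1_sq_le x
    linarith
  · have h4 : (Icc 0 L).indicator (fun _ => (1 : ℝ)) x = 1 :=
      indicator_of_mem (by constructor <;> linarith) _
    have := ψ2_sq_le x
    rw [h4]
    linarith
  · have := ψ1_sq_le (x - L)
    have e : ψ3 x = ψ1 (x - L) := rfl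
    rw [e]
    linarith

lemma e_le (x : ℝ) : e x ≤ 1 := by
  unfold e
  rw [Real.exp_le_one_iff]
  nlinarith [sq_nonneg (s x)]

lemma e_ge (x : ℝ) : 1 / 2 ≤ e x := by
  unfold e
  have h1 := Real.add_one_le_exp (-(9 / 32 * s x ^ 2))
  have h2 := s_sq_le x
  linarith

lemma weight : IsWeight a0 := by
  refine ⟨meas_piece measurable_const (cont_e.mul cont_c).measurable measurable_const, 2 / 5, 1,
    by norm_num, by norm_num, ae_of_all _ fun x => ?_⟩
  unfold a0 piece
  split_ifs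
  · norm_num
  · have h1 := e_ge x
    have h2 := e_le x
    have h3 := c_ge x
    have h4 := c_le x
    simp only []
    constructor
    · nlinarith
    · nlinarith
  · norm_num

lemma satK : SatisfiesK φ0 := by
  have hsinh : Tendsto Real.sinh atTop atTop := by
    apply tendsto_atTop_mono' atTop _ tendsto_id
    filter_upwards [eventually_ge_atTop (0 : ℝ)] with x hx
    exact Real.self_le_sinh_iff.2 hx
  have hsinh' : Tendsto Real.sinh atBot atBot := by
    apply tendsto_atBot_mono' atBot _ tendsto_id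
    filter_upwards [eventually_le_atBot (0 : ℝ)] with x hx
    exact Real.sinh_le_self_iff.2 hx
  refine ⟨?_, ?_, ?_⟩
  · simp [φ0, piece, φ1_zero]
  · have h1 : Tendsto φ3 atTop (𝓝 (Real.pi / 2)) := by
      have h2 : Tendsto (fun x : ℝ => Real.sinh (x - L)) atTop atTop :=
        hsinh.comp (tendsto_atTop_add_const_right _ (-L) tendsto_id)
      exact (tendsto_nhdsWithin_iff.1 Real.tendsto_arctan_atTop).1.comp h2
    apply h1.congr'
    filter_upwards [eventually_gt_atTop L] with x hx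
    have hx0 : 0 < x := L_pos.trans hx
    simp [φ0, piece, not_le.2 hx, not_le.2 hx0]
  · have h1 : Tendsto φ1 atBot (𝓝 (-(Real.pi / 2))) :=
      (tendsto_nhdsWithin_iff.1 Real.tendsto_arctan_atBot).1.comp hsinh'
    apply h1.congr'
    filter_upwards [eventually_le_atBot (0 : ℝ)] with x hx
    simp [φ0, piece, hx]

lemma neg_at : φ0 1 < 0 := by
  have h1 : ¬ ((1 : ℝ) ≤ 0) := by norm_num
  have h2 : (1 : ℝ) ≤ L := by unfold L; linarith [Real.pi_gt_three]
  unfold φ0 piece
  rw [if_neg h1, if_pos h2]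
  unfold φ2 s
  have h3 : 0 < Real.sin (4 * 1 / 5) := Real.sin_pos_of_pos_of_lt_pi (by norm_num)
    (by linarith [Real.pi_gt_three])
  have h4 : 0 < Real.arcsin (3 / 5 * Real.sin (4 * 1 / 5)) := by
    rw [Real.arcsin_pos]; positivity
  linarith

/-- **Q1 is false.** There are a weight `a` and a finite-energy solution of (E) with (K) that is
negative at some `x > 0`. -/
theorem result : ∃ a φ ψ : ℝ → ℝ, IsWeight a ∧ IsHdot φ ψ ∧ SolvesE a φ ψ ∧ SatisfiesK φ ∧
    ∃ x > 0, φ x < 0 :=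
  ⟨a0, φ0, ψ0, weight, ⟨cont_φ0, memLp_ψ0, weak_deriv⟩, eqn, satK, 1, one_pos, neg_at⟩

end Pool.Agent.Results.MP_4601b9_an.SignViolation
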